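import Mathlib

/-!
# Squad KACG (MP_5b0138_an, Theorem G), block HILL

`V` is a real smooth function of period `L`.  `lam L V b` is the lowest eigenvalue of
`D² + 2 b D + V` (`D = -i d/ds`) on the circle of length `L`, `disc L V E` is the trace of the
monodromy matrix of `-u'' + V u = E u` (the discriminant).

MAIN OUTPUT (`HillStmt`): if `lam L V b = lam L V' b` for all real `b`, then
`disc L V = disc L V'` (as entire functions).

Reason: `b` is a flux.  `lam L V b + b ^ 2` is the lowest eigenvalue `E₁` of `-u'' + V u = E u`,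
`u (s + L) = e ^ (i b L) u s`, so `disc L V E₁ = 2 cos (b L)`: the two entire functions `disc L V`
and `disc L V'` agree at infinitely many points of a bounded set.

All rows are independent; a row may use the statements named in `uses` as hypotheses.
-/

open scoped ComplexConjugate ContDiff

noncomputable section

namespace Pool.Agent.KACG

/-- Volterra iterates of the equation `u'' = (V - E) u` -/
def it (V : ℝ → ℝ) (E : ℂ) (f : ℝ → ℂ) : ℕ → ℝ → ℂ
  | 0 => f
  | n + 1 => fun s => ∫ t in (0 : ℝ)..s, ((s - t : ℝ) : ℂ) * (((V t : ℝ) : ℂ) - E) * it V E f n t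

/-- the solution of `u'' = (V - E) u` with `u 0 = a`, `u' 0 = b` is `sol V E (fun s => a + b * s)` -/
def sol (V : ℝ → ℝ) (E : ℂ) (f : ℝ → ℂ) (s : ℝ) : ℂ := ∑' n, it V E f n s

/-- the initial function `1` -/
def f1 : ℝ → ℂ := fun _ => 1

/-- the initial function `s` -/
def f2 : ℝ → ℂ := fun s => (s : ℂ)

/-- the discriminant: the trace of the monodromy matrix -/
def disc (L : ℝ) (V : ℝ → ℝ) (E : ℂ) : ℂ := sol V E f1 L + deriv (sol V E f2) L

/-- `u'' = (V - E) u` on the whole line -/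
def IsSol (V : ℝ → ℝ) (E : ℂ) (u : ℝ → ℂ) : Prop :=
  (∀ s, HasDerivAt u (deriv u s) s) ∧ ∀ s, HasDerivAt (deriv u) ((((V s : ℝ) : ℂ) - E) * u s) s

/-- the `L²` mass over one period -/
def mass (L : ℝ) (u : ℝ → ℂ) : ℝ := ∫ s in (0 : ℝ)..L, ‖u s‖ ^ 2

/-- the energy over one period -/
def enr (L : ℝ) (V : ℝ → ℝ) (u : ℝ → ℂ) : ℝ :=
  ∫ s in (0 : ℝ)..L, (‖deriv u s‖ ^ 2 + V s * ‖u s‖ ^ 2)

/-- the energy of `D² + 2 b D + V` -/
def enf (L : ℝ) (V : ℝ → ℝ) (b : ℝ) (χ : ℝ → ℂ) : ℝ :=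
  ∫ s in (0 : ℝ)..L, (‖deriv χ s‖ ^ 2 + 2 * b * (conj (χ s) * deriv χ s).im + V s * ‖χ s‖ ^ 2)

/-- the lowest eigenvalue of `D² + 2 b D + V` on the circle of length `L` -/
def lam (L : ℝ) (V : ℝ → ℝ) (b : ℝ) : ℝ :=
  sInf {t : ℝ | ∃ χ : ℝ → ℂ, ContDiff ℝ ∞ χ ∧ Function.Periodic χ L ∧ mass L χ = 1 ∧
    t = enf L V b χ}

/-- smooth functions with `u (s + L) = e ^ (i b L) u s` -/
def QP (L b : ℝ) (u : ℝ → ℂ) : Prop :=
  ContDiff ℝ ∞ u ∧ ∀ s, u (s + L) = Complex.exp (Complex.I * (b * L : ℝ)) * u s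

/-- H_VOL: the Volterra series solves the equation.

Proof.  `f s = a + b s`, `R > 0`, `C ≥ |V t - E|` for `|t| ≤ R`, `A = |a| + |b| R`.  Induction:
`|it V E f n s| ≤ A C ^ n |s| ^ (2 n) / (2 n)!` for `|s| ≤ R` (for `s < 0` substitute `t ↦ -t`, or use
`|∫_0^s (s - t) g(t) dt| ≤ ∫_0^|s| (|s| - t) sup_{±t} |g| dt`), every `it n` is continuous.  So the
series converges uniformly on `[-R, R]`, `y = sol V E f` is continuous and (integral of a uniformly
convergent series) `y s = f s + ∫_0^s (s - t) (V t - E) y t dt`.  Differentiate twice: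
`y' s = b + ∫_0^s (V t - E) y t dt`, `y'' s = (V s - E) y s`. -/
def VolStmt : Prop := ∀ (V : ℝ → ℝ), Continuous V → ∀ (E a b : ℂ),
  IsSol V E (sol V E (fun s => a + b * s)) ∧ sol V E (fun s => a + b * s) 0 = a ∧
    deriv (sol V E (fun s => a + b * s)) 0 = b ∧
    ∀ s, deriv (sol V E (fun s => a + b * s)) s =
      b + ∫ t in (0 : ℝ)..s, (((V t : ℝ) : ℂ) - E) * sol V E (fun s => a + b * s) t

/-- H_ENT: `sol` and its derivative are entire functions of `E`.

Proof.  `it V E f n s = ∑_{j ≤ n} E ^ j c_{n,j}(s)` with continuous functions `c_{n,j}` (induction: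
`c_{n+1,j}(s) = ∫_0^s (s - t) (V c_{n,j} - c_{n,j-1}) dt`), so it is a polynomial in `E` for every
`s`, and `|it n s| ≤ A C ^ n |s| ^ (2n) / (2n)!` with `C = sup |V| + ρ` for all `|E| ≤ ρ` (bound of
H_VOL).  `differentiableOn_tsum_of_summable_norm` on every ball.  The same for
`∫_0^s (V t - E) it n t dt`, whose sum over `n` is `deriv y s - b` (H_VOL, last claim, and the
integral of a uniformly convergent series). -/
def EntStmt : Prop := ∀ (V : ℝ → ℝ), Continuous V → ∀ (a b : ℂ) (s : ℝ),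
  Differentiable ℂ (fun E : ℂ => sol V E (fun s => a + b * s) s) ∧
    Differentiable ℂ (fun E : ℂ => deriv (sol V E (fun s => a + b * s)) s)

/-- H_UNI: uniqueness.

Proof.  The difference `w` of the two sides satisfies `w'' = (V - E) w`, `w 0 = w' 0 = 0`.
`ODE_solution_unique` (Grönwall) for the system `(w, w')` on every `[-R, R]` (the coefficient is
bounded there); or: `e = |w|^2 + |w'|^2` satisfies `|e'| ≤ (1 + C) e`. -/
def UniStmt : Prop := ∀ (V : ℝ → ℝ), Continuous V → ∀ (E : ℂ) (u : ℝ → ℂ), IsSol V E u →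
  ∀ s, u s = u 0 * sol V E f1 s + deriv u 0 * sol V E f2 s

/-- H_FLO: Floquet multipliers.

Proof.  `y₁ = sol V E f1`, `y₂ = sol V E f2` (H_VOL with `(a, b) = (1, 0), (0, 1)`; `f1`, `f2` are these
functions after `simp`).  The Wronskian `y₁ y₂' - y₁' y₂` has derivative `0` and is `1` at `0`.
`u = α y₁ + β y₂` with `α = u 0`, `β = u' 0` (H_UNI), `(α, β) ≠ 0` since `u ≠ 0`.  At `s = 0` the
equations `u (s + L) = ζ u s`, `u' (s + L) = ζ u' s` (derivative of the first) are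
`M (α, β) = ζ (α, β)`, `M = [[y₁ L, y₂ L], [y₁' L, y₂' L]]`, `det M = 1`.  So
`ζ ^ 2 - (tr M) ζ + 1 = det (ζ - M) = 0`, and `tr M = disc L V E`. -/
def FloStmt : Prop := ∀ (L : ℝ) (V : ℝ → ℝ), Continuous V → ∀ (E ζ : ℂ)
  (u : ℝ → ℂ), IsSol V E u → (∃ s, u s ≠ 0) → (∀ s, u (s + L) = ζ * u s) → ζ ≠ 0 →
  disc L V E = ζ + ζ⁻¹

/-- H_GAU: gauge transformation and elementary bounds.

Proof.  `χ ↦ u = e ^ (i b s) χ` is a bijection from the smooth `L`-periodic functions onto `QP L b`,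
`mass L u = mass L χ`, `|u'| ^ 2 = |χ' + i b χ| ^ 2 = |χ'| ^ 2 + 2 b Im (conj χ χ') + b ^ 2 |χ| ^ 2`, so
`enr L V u = enf L V b χ + b ^ 2 mass L χ`.  If `|V| ≤ C` then `enr L V u ≥ - C mass L u`, so the set in
the definition of `lam` is bounded below (by `- C - b ^ 2`) and it is not empty (`χ = 1 / √L`, with
value `(1 / L) ∫ V ≤ C`).  First claim: divide `u` by `√(mass L u)` if the mass is not `0`; if the mass
is `0` then `u = 0` (continuity).  Second claim: definition of the infimum. -/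
def GauStmt : Prop := ∀ (L : ℝ) (V : ℝ → ℝ) (b : ℝ), 0 < L → ContDiff ℝ ∞ V →
  Function.Periodic V L →
  (∀ u, QP L b u → (lam L V b + b ^ 2) * mass L u ≤ enr L V u) ∧
  (∃ u : ℕ → ℝ → ℂ, (∀ n, QP L b (u n) ∧ mass L (u n) = 1) ∧
    Filter.Tendsto (fun n => enr L V (u n)) Filter.atTop (nhds (lam L V b + b ^ 2))) ∧
  ∀ C : ℝ, (∀ s, |V s| ≤ C) → |lam L V b + b ^ 2| ≤ C + b ^ 2

/-- H_ARZ: compactness of bounded energy sequences (Arzela-Ascoli).

Proof.  `K ≥ ∫_0^L |u_n'| ^ 2` (`= enr - ∫ V |u_n| ^ 2 ≤ sup enr + C`).  `|u_n'|` is `L`-periodic, so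
`|u_n s - u_n t| ≤ √(K |s - t|)` for `|s - t| ≤ L` (Cauchy-Schwarz), and there is `t ∈ [0, L]` with
`|u_n t| ^ 2 ≤ 1 / L`, so `|u_n| ≤ L ^ (-1/2) + √(K L)`.  Arzela-Ascoli on `[0, L]`
(`BoundedContinuousFunction.arzela_ascoli` or a diagonal sequence) gives a subsequence which converges
uniformly on `[0, L]`, hence (quasi-periodicity, `|e ^ (i b L)| = 1`) uniformly on `ℝ`. -/
def ArzStmt : Prop := ∀ (L : ℝ) (V : ℝ → ℝ) (b B : ℝ), 0 < L → ContDiff ℝ ∞ V →
  Function.Periodic V L → ∀ u : ℕ → ℝ → ℂ, (∀ n, QP L b (u n) ∧ mass L (u n) = 1) →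
  (∀ n, enr L V (u n) ≤ B) →
  ∃ (k : ℕ → ℕ) (v : ℝ → ℂ), StrictMono k ∧ Continuous v ∧
    (∀ s, v (s + L) = Complex.exp (Complex.I * (b * L : ℝ)) * v s) ∧ mass L v = 1 ∧
    TendstoUniformly (fun n => u (k n)) v Filter.atTop

/-- H_WEK: the weak equation for the limit of a minimising sequence.

Proof.  `S(v, w) = ∫_0^L (v' conj(w') + (V - λ) v conj(w))` is a hermitian form on the vector space
`QP L b` with `S(v, v) ≥ 0` (first hypothesis; `S(v,v) = enr L V v - λ mass L v`).  Cauchy-Schwarz for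
nonnegative hermitian forms: `|S(u_n, φ)| ^ 2 ≤ S(u_n, u_n) S(φ, φ) → 0`.  Integration by parts:
`S(u_n, φ) = ∫_0^L u_n conj(-φ'' + (V - λ) φ)` (the boundary term `u_n conj(φ')` is the same at `0` and
`L`).  Uniform convergence of `u_n` to `v`. -/
def WekStmt : Prop := ∀ (L : ℝ) (V : ℝ → ℝ) (b lm : ℝ), 0 < L → ContDiff ℝ ∞ V →
  Function.Periodic V L → (∀ u, QP L b u → lm * mass L u ≤ enr L V u) →
  ∀ (u : ℕ → ℝ → ℂ) (v : ℝ → ℂ), (∀ n, QP L b (u n) ∧ mass L (u n) = 1) →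
  Filter.Tendsto (fun n => enr L V (u n)) Filter.atTop (nhds lm) →
  TendstoUniformly u v Filter.atTop → Continuous v →
  ∀ φ, QP L b φ → ∫ s in (0 : ℝ)..L,
    v s * conj (- deriv (deriv φ) s + (((V s : ℝ) : ℂ) - lm) * φ s) = 0

/-- H_REG: regularity of weak solutions.

Proof.  Let `a` be real, `I = (a, a + L)`.  The integrand of the weak equation is `L`-periodic, so the
integral over `[a, a + L]` is zero too.  Let `w'' = (V - λ) v` on `ℝ`, `w s = ∫_a^s (s - t) (V - λ) v dt`,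
`d = v - w`.  For every `φ` smooth with compact support in `I` (extended to an element of `QP L b` by
`∑_n e ^ (i b L n) φ(s - n L)`): `∫_I v conj((V - λ) φ) = ∫_I w'' conj φ = ∫_I w conj(φ'')`, so
`∫_I d conj(φ'') = 0`.  Du Bois-Reymond: `d` is affine on `I`.  (Choose bumps `ψ₁, ψ₂` in `C_c^∞(I)`
with `∫ ψ₁ = 1, ∫ s ψ₁ = 0, ∫ ψ₂ = 0, ∫ s ψ₂ = 1` and subtract from `d` the affine function `l` with
`∫ (d - l) ψ_i = 0`.  For every `ψ` in `C_c^∞(I)` the function `ψ - (∫ψ) ψ₁ - (∫ sψ) ψ₂` has vanishing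
moments of order `0, 1`, so it is `φ''` with `φ ∈ C_c^∞(I)`; so `∫ (d - l) ψ = 0` for all `ψ`,
`d = l` on `I`.)  So `v = w + l` on `I` is `C²` with `v'' = (V - λ) v`; `a` is arbitrary.
Bootstrap: `v` is smooth. -/
def RegStmt : Prop := ∀ (L : ℝ) (V : ℝ → ℝ) (b lm : ℝ), 0 < L → ContDiff ℝ ∞ V →
  Function.Periodic V L → ∀ v : ℝ → ℂ, Continuous v →
  (∀ s, v (s + L) = Complex.exp (Complex.I * (b * L : ℝ)) * v s) →
  (∀ φ, QP L b φ → ∫ s in (0 : ℝ)..L,
    v s * conj (- deriv (deriv φ) s + (((V s : ℝ) : ℂ) - lm) * φ s) = 0) →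
  ContDiff ℝ ∞ v ∧ IsSol V (lm : ℂ) v

/-- H_MIN: the ground state.

Proof.  H_GAU (minimising sequence `u_n`, `λ = lam L V b + b ^ 2`), H_ARZ (a convergent subsequence;
the energies are bounded since they converge), H_WEK, H_REG. -/
def MinStmt : Prop := ∀ (L : ℝ) (V : ℝ → ℝ) (b : ℝ), 0 < L → ContDiff ℝ ∞ V →
  Function.Periodic V L → ∃ u : ℝ → ℂ, ContDiff ℝ ∞ u ∧ (∃ s, u s ≠ 0) ∧
    (∀ s, u (s + L) = Complex.exp (Complex.I * (b * L : ℝ)) * u s) ∧
    IsSol V ((lam L V b + b ^ 2 : ℝ) : ℂ) u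

/-- H_HIL: MAIN OUTPUT of the block.

Proof.  For `0 < b < π / L` put `E_b = lam L V b + b ^ 2 = lam L V' b + b ^ 2` (real).  By H_MIN and
H_FLO (`ζ = e ^ (i b L)`): `disc L V E_b = 2 cos (b L) = disc L V' E_b`.  Since `cos` is injective on
`(0, π)`, `b ↦ E_b` is injective, so `{E_b}` is infinite; it is bounded (H_GAU, third claim; `V` is
bounded, being continuous and periodic).  So it has an accumulation point.  `disc L V` and `disc L V'`
are entire (H_ENT), and agree on a set with an accumulation point: identity theorem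
(`AnalyticOnNhd.eq_of_frequently_eq`). -/
def HillStmt : Prop := ∀ (L : ℝ) (V V' : ℝ → ℝ), 0 < L → ContDiff ℝ ∞ V → ContDiff ℝ ∞ V' →
  Function.Periodic V L → Function.Periodic V' L → (∀ b : ℝ, lam L V b = lam L V' b) →
  disc L V = disc L V'

end Pool.Agent.KACG
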