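import Pool.Agent.KACG.Hill

/-!
# Squad KACG (MP_5b0138_an, Theorem G), block SLOPES

MAIN OUTPUT (`SloStmt`): `κ`, `κ'` smooth, real, of period `L`, `c` a regular value of both, and
`disc L (g (κ - c) ^ 2) = disc L (g (κ' - c) ^ 2)` for all `g ≥ 0`; then the sets of the slopes
`|κ_s(p)|`, `κ(p) = c`, of `κ` and `κ'` are equal.

Reason: the zeros of `disc L V` are the eigenvalues of `-u'' + V u` with `u (s + L) = i u s`, all
simple.  For `V = g (κ - c) ^ 2`, `g → ∞`, the number of the zeros below `e √g` is the number of the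
pairs `(p, n)` with `κ(p) = c`, `(2n + 1) |κ_s(p)| < e` (min-max, harmonic oscillators at the wells).

All rows are independent; a row may use the statements named in `uses` as hypotheses.
-/

open scoped ComplexConjugate ContDiff

noncomputable section

namespace Pool.Agent.KACG

/-- smooth functions with `u (s + L) = i u s` -/
def TP (L : ℝ) (u : ℝ → ℂ) : Prop := ContDiff ℝ ∞ u ∧ ∀ s, u (s + L) = Complex.I * u s

/-- S_TPQ: `TP L` is `QP L (π / (2 L))`.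

Proof.  `exp (i (π / (2L)) L) = exp (i π / 2) = i`. -/
def TpqStmt : Prop := ∀ (L : ℝ) (u : ℝ → ℂ), 0 < L → (TP L u ↔ QP L (Real.pi / (2 * L)) u)

/-! ### Zeros of the discriminant are eigenvalues -/

/-- S_ZER: zeros of the discriminant give eigenfunctions.

Proof.  `y₁ = sol V E f1`, `y₂ = sol V E f2` (H_VOL), Wronskian `y₁ y₂' - y₁' y₂ = 1`.  The matrix
`M = [[y₁ L, y₂ L], [y₁' L, y₂' L]]` has determinant `1` and trace `disc L V E = 0`, so `det (M - i) =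
i² - 0 + 1 = 0` and there is `(α, β) ≠ 0` with `M (α, β) = i (α, β)`.  `u = α y₁ + β y₂` is a solution,
`u ≠ 0`, and `u (s + L) - i u s` is a solution (`V` is `L`-periodic) with zero initial values, so it
is `0` (H_UNI).  `u` is smooth: `u'' = (V - E) u`, induction. -/
def ZerStmt : Prop := ∀ (L : ℝ) (V : ℝ → ℝ) (E : ℝ), 0 < L → ContDiff ℝ ∞ V →
  Function.Periodic V L → disc L V (E : ℂ) = 0 →
  ∃ u : ℝ → ℂ, TP L u ∧ (∃ s, u s ≠ 0) ∧ IsSol V (E : ℂ) u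

/-- S_ORT: eigenfunctions of different eigenvalues are orthogonal for the mass and the energy.

Proof.  For `z, w ∈ Z`: `∫_0^L (u_z' conj(u_w') + V u_z conj(u_w)) = z ∫ u_z conj(u_w)` (integration by
parts, the boundary term `u_z' conj(u_w)` is the same at `0` and `L`), and `= w ∫ u_z conj(u_w)` (move
the derivative to the other side; `V`, `z`, `w` are real).  So `∫ u_z conj(u_w) = 0` for `z ≠ w`.
Expand the squares. -/
def OrtStmt : Prop := ∀ (L : ℝ) (V : ℝ → ℝ), 0 < L → ContDiff ℝ ∞ V → Function.Periodic V L →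
  ∀ (Z : Finset ℝ) (u : ℝ → ℝ → ℂ), (∀ z ∈ Z, TP L (u z) ∧ IsSol V (z : ℂ) (u z)) →
  ∀ c : ℝ → ℂ,
    mass L (fun s => ∑ z ∈ Z, c z * u z s) = ∑ z ∈ Z, ‖c z‖ ^ 2 * mass L (u z) ∧
    enr L V (fun s => ∑ z ∈ Z, c z * u z s) = ∑ z ∈ Z, z * (‖c z‖ ^ 2 * mass L (u z))

/-- S_LOW: a lower bound of the energy in finite codimension bounds the number of zeros.

Proof.  Let `Z` be a finite set of zeros below `E`, `u_z` the eigenfunctions (S_ZER).  If
`card Z > card ι` there is `c ≠ 0` (supported in `Z`) such that `u = ∑ c_z u_z` is orthogonal to all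
`f_j` (more unknowns than linear equations).  `u ∈ TP L`, `mass L u > 0` (S_ORT) and
`enr L V u = ∑ z |c_z|² mass < E mass L u` (S_ORT), against the hypothesis. -/
def LowStmt : Prop := ∀ (L : ℝ) (V : ℝ → ℝ) (E a : ℝ) (ι : Type) [Fintype ι] (f : ι → ℝ → ℂ),
  0 < L → ContDiff ℝ ∞ V → Function.Periodic V L → (∀ j, Continuous (f j)) →
  (∀ u, TP L u → (∀ j, ∫ s in a..(a + L), u s * f j s = 0) → E * mass L u ≤ enr L V u) →
  ∀ Z : Finset ℝ, (∀ z ∈ Z, z < E ∧ disc L V (z : ℂ) = 0) → Z.card ≤ Fintype.card ι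

/-- S_ONE: the next eigenfunction (STRONG).

Proof.  `X = {u ∈ TP L : ∫_0^L u conj(e_j) = 0 for all j}`, `μ = inf {enr L V u : u ∈ X, mass L u = 1}`
(bounded below by `- sup |V|`; the set is not empty: `w` has positive mass, since otherwise `w = 0` and
`enr = 0`), `μ < E`.  Minimising sequence `u_m ∈ X`; H_ARZ (with `b = π/(2L)`, S_TPQ): a subsequence
converges uniformly to `v`, `mass L v = 1`, `∫ v conj(e_j) = 0`.  For `φ ∈ X`:
`S(u, φ) = ∫ (u' conj(φ') + (V - μ) u conj(φ))` is a nonnegative hermitian form on `X`, so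
`|S(u_m, φ)|² ≤ S(u_m, u_m) S(φ, φ) → 0`, and `S(u_m, φ) = ∫ u_m conj(-φ'' + (V - μ) φ)`, so
`∫ v conj(-φ'' + (V - μ)φ) = 0`.  For `φ = e_j` this integral is `(λ_j - μ) ∫ v conj(e_j) = 0`.  Every
`φ ∈ TP L` is `∑ ⟨φ, e_j⟩ e_j` plus an element of `X` (orthonormality).  So the weak equation holds
for all `φ ∈ QP L b`: H_REG. -/
def OneStmt : Prop := ∀ (L : ℝ) (V : ℝ → ℝ) (E : ℝ), 0 < L → ContDiff ℝ ∞ V →
  Function.Periodic V L → ∀ (k : ℕ) (e : Fin k → ℝ → ℂ) (lm : Fin k → ℝ),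
  (∀ j, TP L (e j) ∧ IsSol V ((lm j : ℝ) : ℂ) (e j)) →
  (∀ i j, ∫ s in (0 : ℝ)..L, e i s * conj (e j s) = if i = j then 1 else 0) →
  (∃ w, TP L w ∧ (∀ j, ∫ s in (0 : ℝ)..L, w s * conj (e j s) = 0) ∧
    enr L V w < E * mass L w) →
  ∃ (v : ℝ → ℂ) (μ : ℝ), TP L v ∧ IsSol V (μ : ℂ) v ∧ mass L v = 1 ∧
    (∀ j, ∫ s in (0 : ℝ)..L, v s * conj (e j s) = 0) ∧ μ < E

/-- S_SIM: the eigenvalues are simple.

Proof.  Suppose `u, v ∈ TP L` are linearly independent solutions of the same equation.  By H_UNI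
both are combinations of `y₁ = sol V E f1`, `y₂ = sol V E f2`, so `y₁, y₂` are combinations of `u, v`
and `y_j (s + L) = i y_j s`, `y_j' (s + L) = i y_j' s`.  The Wronskian `y₁ y₂' - y₁' y₂` is constant
`1`, and at `L` it is `i²` times its value at `0`, i.e. `-1`: contradiction. -/
def SimStmt : Prop := ∀ (L : ℝ) (V : ℝ → ℝ) (E : ℂ) (u v : ℝ → ℂ), 0 < L → Continuous V →
  TP L u → TP L v → IsSol V E u → IsSol V E v → (∃ s, u s ≠ 0) → ∃ a : ℂ, ∀ s, v s = a * u s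

/-- S_EIG: trial functions give zeros of the discriminant.

Proof.  Induction on `k ≤ n = card ι`: there are orthonormal eigenfunctions `e_0, …, e_{k-1}` with
eigenvalues `< E`.  Step `k < n`: there is `c ≠ 0` with `∑ c_i w_i` orthogonal to the `e_j`
(`k < n` equations), S_ONE.  For `k = n`: the eigenvalues are pairwise different (S_SIM: `e_j = a e_i`
is impossible for orthonormal functions), and `disc L V λ_j = i + i⁻¹ = 0` (H_FLO, `ζ = i`). -/
def EigStmt : Prop := ∀ (L : ℝ) (V : ℝ → ℝ) (E : ℝ) (ι : Type) [Fintype ι] (w : ι → ℝ → ℂ),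
  0 < L → ContDiff ℝ ∞ V → Function.Periodic V L → (∀ j, TP L (w j)) →
  (∀ c : ι → ℂ, c ≠ 0 → enr L V (fun s => ∑ j, c j * w j s) < E * mass L (fun s => ∑ j, c j * w j s)) →
  ∃ Z : Finset ℝ, Z.card = Fintype.card ι ∧ ∀ z ∈ Z, z < E ∧ disc L V (z : ℂ) = 0

/-! ### The harmonic oscillator -/

/-- the energy of the harmonic oscillator -/
def ho (w : ℝ) (f : ℝ → ℂ) : ℝ := ∫ x, (‖deriv f x‖ ^ 2 + w ^ 2 * x ^ 2 * ‖f x‖ ^ 2)

/-- the Gaussian -/
def gs (w x : ℝ) : ℝ := Real.exp (-(w * x ^ 2 / 2))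

/-- S_HOL: lower bound for the oscillator (STRONG).

Proof.  Induction on `n`, for all `f`.  Put `A f = f' + w x f`, `A* f = - f' + w x f`.  Integration by
parts: `‖A f‖² = ho w f - w ‖f‖²`, `‖A* f‖² = ho w f + w ‖f‖²` (`∫ 2 w x Re(conj f f') = - w ‖f‖²`), which is
the case `n = 0`.  `n → n + 1`: let `∫ f x^j gs = 0` for `j ≤ n`.  Put
`v x = - e^{w x²/2} ∫_{-∞}^x f gs`; it is smooth, of compact support (`∫ f gs = 0`), and `A* v = f`
(`v' = w x v - f`).  For `j < n`: `0 = ∫ f x^{j+1} gs = ∫ v ((x^{j+1} gs)' + w x^{j+2} gs) =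
(j + 1) ∫ v x^j gs`.  So the induction hypothesis gives `ho w v ≥ (2n+1) w ‖v‖²`, i.e.
`‖f‖² = ‖A* v‖² ≥ (2n + 2) w ‖v‖²`.  Now `‖f‖² = ⟨f, A* v⟩ = ⟨A f, v⟩ ≤ ‖A f‖ ‖v‖`, so
`‖f‖⁴ ≤ ‖A f‖² ‖f‖² / ((2n+2) w)`, `‖A f‖² ≥ (2n+2) w ‖f‖²`, `ho w f ≥ (2n + 3) w ‖f‖²`. -/
def HolStmt : Prop := ∀ (w : ℝ) (n : ℕ), 0 < w → ∀ f : ℝ → ℂ, ContDiff ℝ ∞ f →
  HasCompactSupport f → (∀ j < n, ∫ x, f x * ((x ^ j * gs w x : ℝ) : ℂ) = 0) →
  (2 * n + 1) * w * ∫ x, ‖f x‖ ^ 2 ≤ ho w f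

/-- S_HOU: trial functions for the oscillator (STRONG).

Proof.  (1) For a complex polynomial `P` of degree `≤ m`, `f = P gs`: `A f = P' gs`, and
`‖P' gs‖² ≤ 2 m w ‖P gs‖²`: induction on `m`; `m = 0` clear; `u = P' gs`, `deg P' ≤ m - 1`:
`‖u‖² = ⟨A f, u⟩ = ⟨f, A* u⟩ ≤ ‖f‖ ‖A* u‖`, `‖A* u‖² = ‖A u‖² + 2 w ‖u‖² ≤ (2 (m - 1) w + 2 w) ‖u‖²`.  So
`ho w f = ‖A f‖² + w ‖f‖² ≤ (2 m + 1) w ‖f‖²`.  (2) `n = m + 1` (for `n = 0` nothing to prove),
`φ_j(x) = x^j gs(x) θ(x / R)` with a smooth cutoff `θ`.  The Gram matrices of mass and `ho` of the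
`φ_j` converge for `R → ∞` to those of `x^j gs` (dominated convergence; `θ(x/R)' = O(1/R)`), and the
limit of `e mass - ho` is positive definite, since `(2n - 1) w < e` and the `x^j gs` are linearly
independent; so it is positive definite for large `R`. -/
def HouStmt : Prop := ∀ (w e : ℝ) (n : ℕ), 0 < w → (2 * (n : ℝ) - 1) * w < e →
  ∃ φ : Fin n → ℝ → ℝ, (∀ j, ContDiff ℝ ∞ (φ j) ∧ HasCompactSupport (φ j)) ∧
    ∀ c : Fin n → ℂ, c ≠ 0 →
      ho w (fun x => ∑ j, c j * (φ j x : ℂ)) < e * ∫ x, ‖∑ j, c j * (φ j x : ℂ)‖ ^ 2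

/-! ### Wells -/

/-- `p` lists the points of the level `c` in a period `[a, a + L]`, all regular, `a` is not on the
level -/
structure Wells (L : ℝ) (κ : ℝ → ℝ) (c a : ℝ) (r : ℕ) (p : Fin r → ℝ) : Prop where
  pos : 0 < L
  sm : ContDiff ℝ ∞ κ
  per : Function.Periodic κ L
  mem : ∀ i, p i ∈ Set.Ioo a (a + L)
  inj : Function.Injective p
  val : ∀ i, κ (p i) = c
  reg : ∀ i, deriv κ (p i) ≠ 0
  all : ∀ s ∈ Set.Icc a (a + L), κ s = c → ∃ i, s = p i

/-- S_WEL: the wells of a regular value.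

Proof.  There is `a` with `κ a ≠ c` (otherwise `κ' = 0`).  `{s ∈ [a, a + L] : κ s = c}` is compact and
all its points are isolated (`κ' ≠ 0`), so it is finite; `a, a + L` are not in it. -/
def WelStmt : Prop := ∀ (L : ℝ) (κ : ℝ → ℝ) (c : ℝ), 0 < L → ContDiff ℝ ∞ κ →
  Function.Periodic κ L → (∀ s, κ s = c → deriv κ s ≠ 0) →
  ∃ (a : ℝ) (r : ℕ) (p : Fin r → ℝ), Wells L κ c a r p

/-- the potential -/
def pot (κ : ℝ → ℝ) (c g : ℝ) : ℝ → ℝ := fun s => g * (κ s - c) ^ 2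

/-- S_UPP: trial functions in the wells (STRONG).

Proof.  `w_i = |κ'(p_i)|`.  Choose `ε > 0` with `(2 n_i - 1)(1 + ε) w_i < e` and `δ > 0` such that the
intervals `[p_i - δ, p_i + δ]` are disjoint and contained in `(a, a + L)` and
`|κ s - c| ≤ (1 + ε) w_i |s - p_i|` on them.  S_HOU with `w = (1 + ε) w_i`: `φ_{ij}`, supports in
`[-R, R]`.  For `g` with `g^{1/4} δ > R` put `u_{ij}(s) = ∑_{m ∈ ℤ} i^m φ_{ij}(g^{1/4}(s - p_i - m L))`
(locally finite, at most one term is not zero), an element of `TP L`.  For `u = ∑ c_{ij} u_{ij}`,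
`f_i = ∑_j c_{ij} φ_{ij}`: the supports for different `i` are disjoint, and (integrate over
`[a, a + L]`; the integrands of mass and energy are `L`-periodic)
`mass u = g^{-1/4} ∑_i ‖f_i‖²`, `enr u ≤ g^{-1/4} g^{1/2} ∑_i ho ((1+ε) w_i) f_i < e √g mass u`. -/
def UppStmt : Prop := ∀ (L : ℝ) (κ : ℝ → ℝ) (c a : ℝ) (r : ℕ) (p : Fin r → ℝ),
  Wells L κ c a r p → ∀ (e : ℝ) (n : Fin r → ℕ), 0 < e →
  (∀ i, (2 * (n i : ℝ) - 1) * |deriv κ (p i)| < e) →
  ∃ g₀ : ℝ, 0 < g₀ ∧ ∀ g : ℝ, g₀ ≤ g → ∃ w : (Σ i, Fin (n i)) → ℝ → ℂ, (∀ j, TP L (w j)) ∧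
    ∀ d : (Σ i, Fin (n i)) → ℂ, d ≠ 0 →
      enr L (pot κ c g) (fun s => ∑ j, d j * w j s) <
        e * Real.sqrt g * mass L (fun s => ∑ j, d j * w j s)

/-- S_LOB: lower bound of the energy in finite codimension (STRONG).

Proof.  Choose `ε, η > 0` with `(2 n_i + 1)(1 - ε) w_i ≥ e + η`, and `δ` as in S_UPP with
`|κ s - c| ≥ (1 - ε) w_i |s - p_i|` on `[p_i - δ, p_i + δ]`.  Smooth real `L`-periodic functions
`χ_0, …, χ_r` with `∑ χ_j² = 1`, `χ_i` (`i ≥ 1`) supported in the translates of `(p_i - δ, p_i + δ)`,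
`χ_0 = 0` near the `p_i`; so `|κ - c| ≥ d > 0` on the support of `χ_0`.  IMS: `∑ χ_j χ_j' = 0`, so
`|u'|² = ∑ |(χ_j u)'|² - ∑ |χ_j'|² |u|²`, `enr u ≥ ∑_j enr (χ_j u) - C mass u`.  Put
`f_{ij}(s) = χ_i(s) (s - p_i)^j gs (√g (1 - ε) w_i) (s - p_i)` on `(p_i - δ, p_i + δ)`, `0` elsewhere.  If
`u` is orthogonal to them then S_HOL for `χ_i u` on `(p_i - δ, p_i + δ)` (translated to `0`, extended
by `0`), `w = √g (1 - ε) w_i`, gives `enr (χ_i u) ≥ (2 n_i + 1) √g (1 - ε) w_i mass (χ_i u) ≥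
(e + η) √g mass (χ_i u)`, and `enr (χ_0 u) ≥ g d² mass (χ_0 u)`.  So `enr u ≥ ((e + η) √g - C) mass u
≥ e √g mass u` for large `g`. -/
def LobStmt : Prop := ∀ (L : ℝ) (κ : ℝ → ℝ) (c a : ℝ) (r : ℕ) (p : Fin r → ℝ),
  Wells L κ c a r p → ∀ (e : ℝ) (n : Fin r → ℕ), 0 < e →
  (∀ i, e < (2 * (n i : ℝ) + 1) * |deriv κ (p i)|) →
  ∃ g₀ : ℝ, 0 < g₀ ∧ ∀ g : ℝ, g₀ ≤ g → ∃ f : (Σ i, Fin (n i)) → ℝ → ℂ,
    (∀ j, Continuous (f j)) ∧
    ∀ u, TP L u → (∀ j, ∫ s in a..(a + L), u s * f j s = 0) →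
      e * Real.sqrt g * mass L u ≤ enr L (pot κ c g) u

/-- `n` is the number of the odd multiples of `w` below `e`, and `e` is not an odd multiple -/
def Cut (w e : ℝ) (n : ℕ) : Prop := (2 * (n : ℝ) - 1) * w < e ∧ e < (2 * (n : ℝ) + 1) * w

/-- S_CNT: the counting functions agree.

Proof.  For large `g` S_UPP + S_EIG (index type `Σ i, Fin (n i)`, of cardinality `∑ n_i`, `E = e √g`)
give `∑ n_i` zeros of `disc L (pot κ c g)` below `e √g`, and S_LOB' + S_LOW for `κ'` say that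
`disc L (pot κ' c g)` has at most `∑ n'_i` zeros below `e √g`.  The discriminants are equal:
`∑ n_i ≤ ∑ n'_i`; symmetric. -/
def CntStmt : Prop := ∀ (L : ℝ) (κ κ' : ℝ → ℝ) (c a a' : ℝ) (r r' : ℕ) (p : Fin r → ℝ)
  (p' : Fin r' → ℝ), Wells L κ c a r p → Wells L κ' c a' r' p' →
  (∀ g : ℝ, 0 ≤ g → disc L (pot κ c g) = disc L (pot κ' c g)) →
  ∀ (e : ℝ) (n : Fin r → ℕ) (n' : Fin r' → ℕ), 0 < e →
  (∀ i, Cut |deriv κ (p i)| e (n i)) → (∀ i, Cut |deriv κ' (p' i)| e (n' i)) →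
  ∑ i, n i = ∑ i, n' i

/-- S_MUL: the counting function determines the slopes.

Proof.  Prove more generally for two finite multisets `S, S'` of positive reals: if for all `e > 0`
which are not odd multiples of elements of `S ∪ S'` the numbers of pairs (element `w`, odd number
`2n + 1`) with `(2n + 1) w < e` agree, then `S = S'`.  Induction on `card S`.  Let `m` be the smallest
element of `S ∪ S'` (if both are empty: done), say `m ∈ S`.  For `e` slightly larger than `m` (less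
than `3m` and than all other elements of `S ∪ S'` different from `m`) the numbers are the
multiplicities of `m` in `S` and `S'`, so `m ∈ S'`.  Remove one `m` from both.  The hypothesis for
`S \ m`, `S' \ m` holds for the `e` which are not odd multiples of elements of `S ∪ S'`; if `e` is not
an odd multiple of an element of the smaller multisets, but of `m`, replace `e` by a slightly larger
number: the counts of the smaller multisets do not change. -/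
def MulStmt : Prop := ∀ (r r' : ℕ) (w : Fin r → ℝ) (w' : Fin r' → ℝ), (∀ i, 0 < w i) →
  (∀ i, 0 < w' i) →
  (∀ (e : ℝ) (n : Fin r → ℕ) (n' : Fin r' → ℕ), 0 < e → (∀ i, Cut (w i) e (n i)) →
    (∀ i, Cut (w' i) e (n' i)) → ∑ i, n i = ∑ i, n' i) →
  Set.range w = Set.range w'

/-- S_SLO: MAIN OUTPUT of the block.

Proof.  S_WEL for both, S_CNT, S_MUL (`w_i = |κ'(p_i)| > 0`); every `s` with `κ s = c` is congruent
modulo `L` to some `p_i`, with the same slope (`deriv κ` is periodic). -/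
def SloStmt : Prop := ∀ (L : ℝ) (κ κ' : ℝ → ℝ) (c : ℝ), 0 < L → ContDiff ℝ ∞ κ →
  ContDiff ℝ ∞ κ' → Function.Periodic κ L → Function.Periodic κ' L →
  (∀ s, κ s = c → deriv κ s ≠ 0) → (∀ s, κ' s = c → deriv κ' s ≠ 0) →
  (∀ g : ℝ, 0 ≤ g → disc L (pot κ c g) = disc L (pot κ' c g)) →
  {w : ℝ | ∃ s, κ s = c ∧ w = |deriv κ s|} = {w : ℝ | ∃ s, κ' s = c ∧ w = |deriv κ' s|}

end Pool.Agent.KACG
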